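import Mathlib
import Pool.Agent.V11321.LRP.Final2

/-!
Every countably infinite group has percolation threshold `λ_c(Γ) = 1`.

Upper bound: for `L > c > 1` the measure is `μ = α ν₀ + β ρ + β p` with `α = c / L`. The first
layer `ν₀` is the uniform measure on a large finite symmetric set; the cluster of `1` it produces has
at least `M₀` points with probability at least `θ₀ > 0`, where `θ₀` depends only on `c`. The
remaining layers form the mixture `ρ` and double the size of the cluster at each step with summable
losses once `θ₀ (L β) M₀ ≥ 64`. The last part `p` has full support and makes `μ` generating.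

Lower bound: for `l < 1` the expected size of a cluster is at most `1 / (1 - l)`.
-/

set_option autoImplicit false

namespace Pool.Agent.Results.MP_da416c_pr.ThresholdOne

open Pool.Agent.V11321.LRP

universe u

/-- Every countably infinite group `Γ` satisfies `λ_c(Γ) = inf_μ λ_c(μ) = 1`. -/
theorem result (Γ : Type u) [Group Γ] [Countable Γ] [Infinite Γ] :
    ⨅ μ : GenMeasure Γ, μ.lambdaC = 1 :=
  iInf_lambdaC Γ

end Pool.Agent.Results.MP_da416c_pr.ThresholdOne
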